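import Mathlib

namespace Pool.Agent.Results.MP_ea4c65_al.ShadowCounterexample

/-- The (undirected) Cayley graph of `(G, S)`: `x` and `y` are joined when they are distinct and
`y = x s` or `x = y s` for some `s ∈ S`. -/
def cayley {G : Type} [Group G] (S : Set G) : SimpleGraph G where
  Adj x y := x ≠ y ∧ (x⁻¹ * y ∈ S ∨ y⁻¹ * x ∈ S)
  symm := ⟨fun _ _ h => ⟨h.1.symm, h.2.symm⟩⟩
  loopless := ⟨fun _ h => h.1 rfl⟩

/-- Word length `|x| = d(e, x)`. -/
noncomputable def len {G : Type} [Group G] (S : Set G) (x : G) : ℕ := (cayley S).dist 1 x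

/-- `S(n)^{s∞}`: the elements of length `n` from which there is a strictly increasing path to
infinity. -/
def sphereInf {G : Type} [Group G] (S : Set G) (n : ℕ) : Set G :=
  {x | len S x = n ∧ ∃ π : ℕ → G, π 0 = x ∧
    ∀ i, (cayley S).Adj (π i) (π (i + 1)) ∧ len S (π i) < len S (π (i + 1))}

/-- `y` lies on some geodesic from `e` to `x`. -/
def OnGeodesic {G : Type} [Group G] (S : Set G) (y x : G) : Prop :=
  ∃ p : (cayley S).Walk 1 x, p.length = len S x ∧ y ∈ p.support

/-- The depth of the shadow `sd(x)`: the least `k` (necessarily `k ≤ |x|`) such that some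
`y ∈ S(|x| - k)^{s∞}` lies on a geodesic from `e` to `x`. -/
noncomputable def sd {G : Type} [Group G] (S : Set G) (x : G) : ℕ :=
  sInf {k | k ≤ len S x ∧ ∃ y ∈ sphereInf S (len S x - k), OnGeodesic S y x}

/-- The group `ℤ × ℤ/7`, written multiplicatively. -/
abbrev G7 : Type := Multiplicative (ℤ × ZMod 7)

/-- The element `(z, c)`. -/
def el (z : ℤ) (c : ZMod 7) : G7 := Multiplicative.ofAdd (z, c)

/-- The generating set `{(1,0), (1,1), (1,-1), (0,2)}`. -/
def S7 : Set G7 := {el 1 0, el 1 1, el 1 (-1), el 0 2}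

/-- first coordinate -/
def zc (v : G7) : ℤ := (Multiplicative.toAdd v).1
/-- second coordinate -/
def cc (v : G7) : ZMod 7 := (Multiplicative.toAdd v).2

theorem el_eta (v : G7) : el (zc v) (cc v) = v := rfl

theorem el_inj {z z' : ℤ} {c c' : ZMod 7} : el z c = el z' c' ↔ z = z' ∧ c = c' := by
  unfold el
  rw [Multiplicative.ofAdd.apply_eq_iff_eq, Prod.mk.injEq]

theorem el_inv_mul (z z' : ℤ) (c c' : ZMod 7) : (el z c)⁻¹ * el z' c' = el (z' - z) (c' - c) := by
  unfold el
  rw [← ofAdd_neg, ← ofAdd_add]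
  congr 1
  ext
  · change -z + z' = z' - z
    ring
  · change -c + c' = c' - c
    ring

theorem one_el : (1 : G7) = el 0 0 := rfl

theorem mem_S7 {z : ℤ} {c : ZMod 7} : el z c ∈ S7 ↔
    (z = 1 ∧ c = 0) ∨ (z = 1 ∧ c = 1) ∨ (z = 1 ∧ c = -1) ∨ (z = 0 ∧ c = 2) := by
  unfold S7
  simp only [Set.mem_insert_iff, Set.mem_singleton_iff, el_inj]

theorem adj_el {z z' : ℤ} {c c' : ZMod 7} : (cayley S7).Adj (el z c) (el z' c') ↔
    (z' - z = 1 ∧ (c' - c = 0 ∨ c' - c = 1 ∨ c' - c = -1)) ∨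
    (z' - z = -1 ∧ (c' - c = 0 ∨ c' - c = 1 ∨ c' - c = -1)) ∨
    (z' - z = 0 ∧ (c' - c = 2 ∨ c' - c = -2)) := by
  change (el z c ≠ el z' c' ∧ ((el z c)⁻¹ * el z' c' ∈ S7 ∨ (el z' c')⁻¹ * el z c ∈ S7)) ↔ _
  rw [el_inv_mul, el_inv_mul, mem_S7, mem_S7, Ne, el_inj]
  have e : c - c' = -(c' - c) := by ring
  rw [e]
  generalize hd : c' - c = d
  have hcc : c = c' ↔ d = 0 := by rw [← hd, sub_eq_zero, eq_comm]
  have hz : z = z' ↔ z' - z = 0 := by omega
  rw [hcc, hz]
  have hz2 : z - z' = -(z' - z) := by ring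
  rw [hz2]
  generalize z' - z = y
  have key : ∀ d : ZMod 7, (-d = 0 ↔ d = 0) ∧ (-d = 1 ↔ d = -1) ∧ (-d = -1 ↔ d = 1) ∧
      (-d = 2 ↔ d = -2) ∧ (d = 2 → d ≠ 0) ∧ (d = -2 → d ≠ 0) := by decide
  obtain ⟨k1, k2, k3, k4, k5, k6⟩ := key d
  rw [k1, k2, k3, k4]
  have y1 : (-y = 1) ↔ (y = -1) := by omega
  have y0 : (-y = 0) ↔ (y = 0) := by omega
  rw [y1, y0]
  constructor
  · rintro ⟨-, (⟨a, b⟩ | ⟨a, b⟩ | ⟨a, b⟩ | ⟨a, b⟩) | (⟨a, b⟩ | ⟨a, b⟩ | ⟨a, b⟩ | ⟨a, b⟩)⟩
    · exact Or.inl ⟨a, Or.inl b⟩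
    · exact Or.inl ⟨a, Or.inr (Or.inl b)⟩
    · exact Or.inl ⟨a, Or.inr (Or.inr b)⟩
    · exact Or.inr (Or.inr ⟨a, Or.inl b⟩)
    · exact Or.inr (Or.inl ⟨a, Or.inl b⟩)
    · exact Or.inr (Or.inl ⟨a, Or.inr (Or.inr b)⟩)
    · exact Or.inr (Or.inl ⟨a, Or.inr (Or.inl b)⟩)
    · exact Or.inr (Or.inr ⟨a, Or.inr b⟩)
  · have hy1 : y = 1 → y ≠ 0 := by
      intro h1 h2; rw [h1] at h2; exact one_ne_zero h2
    have hy2 : y = -1 → y ≠ 0 := by
      intro h1 h2; rw [h1] at h2; exact absurd h2 (by norm_num)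
    rintro (⟨h, h'⟩ | ⟨h, h'⟩ | ⟨h, h'⟩)
    · refine ⟨fun hh => hy1 h hh.1, Or.inl ?_⟩
      rcases h' with h' | h' | h'
      · exact Or.inl ⟨h, h'⟩
      · exact Or.inr (Or.inl ⟨h, h'⟩)
      · exact Or.inr (Or.inr (Or.inl ⟨h, h'⟩))
    · refine ⟨fun hh => hy2 h hh.1, Or.inr ?_⟩
      rcases h' with h' | h' | h'
      · exact Or.inl ⟨h, h'⟩
      · exact Or.inr (Or.inr (Or.inl ⟨h, h'⟩))
      · exact Or.inr (Or.inl ⟨h, h'⟩)
    · rcases h' with h' | h'
      · exact ⟨fun hh => k5 h' hh.2, Or.inl (Or.inr (Or.inr (Or.inr ⟨h, h'⟩)))⟩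
      · exact ⟨fun hh => k6 h' hh.2, Or.inr (Or.inr (Or.inr (Or.inr ⟨h, h'⟩)))⟩

/-- `v` is reached from `e` by a walk of length `n`. -/
def Reach (n : ℕ) (v : G7) : Prop := ∃ p : (cayley S7).Walk 1 v, p.length = n

theorem Reach.zero : Reach 0 (el 0 0) := ⟨SimpleGraph.Walk.nil, rfl⟩

theorem Reach.step {n : ℕ} {v w : G7} (h : Reach n v) (hvw : (cayley S7).Adj v w) :
    Reach (n + 1) w := by
  obtain ⟨p, hp⟩ := h
  exact ⟨p.concat hvw, by simp [hp]⟩

theorem reach_pos (n : ℕ) : ∀ e : ℤ, |e| ≤ n → Reach n (el n e) ∧ Reach n (el (-n) e) := by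
  induction n with
  | zero =>
    intro e he
    have : e = 0 := by simpa using he
    subst this
    exact ⟨by simpa using Reach.zero, by simpa using Reach.zero⟩
  | succ n ih =>
    intro e he
    obtain ⟨e', he', hd⟩ : ∃ e' : ℤ, |e'| ≤ n ∧ (e - e' = 0 ∨ e - e' = 1 ∨ e - e' = -1) := by
      rw [abs_le] at he
      push_cast at he
      by_cases h1 : e = n + 1
      · exact ⟨n, by simp, by omega⟩
      · by_cases h2 : e = -(n + 1)
        · exact ⟨-n, by simp, by omega⟩
        · exact ⟨e, by rw [abs_le]; omega, by omega⟩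
    obtain ⟨h1, h2⟩ := ih e' he'
    have hd' : ((e : ZMod 7) - (e' : ZMod 7) = 0 ∨ (e : ZMod 7) - (e' : ZMod 7) = 1 ∨
        (e : ZMod 7) - (e' : ZMod 7) = -1) := by
      rcases hd with hd | hd | hd
      · left; exact_mod_cast congrArg (Int.cast : ℤ → ZMod 7) hd
      · right; left; exact_mod_cast congrArg (Int.cast : ℤ → ZMod 7) hd
      · right; right; exact_mod_cast congrArg (Int.cast : ℤ → ZMod 7) hd
    refine ⟨h1.step ?_, h2.step ?_⟩
    · rw [adj_el]
      left
      exact ⟨by push_cast; ring, hd'⟩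
    · rw [adj_el]
      right; left
      exact ⟨by push_cast; ring, hd'⟩

theorem small_rep (c : ZMod 7) : ∃ e : ℤ, |e| ≤ 3 ∧ (e : ZMod 7) = c := by
  revert c
  have : ∀ c : ZMod 7, ∃ e ∈ ({-3, -2, -1, 0, 1, 2, 3} : Finset ℤ), (e : ZMod 7) = c := by decide
  intro c
  obtain ⟨e, he, hc⟩ := this c
  refine ⟨e, ?_, hc⟩
  simp only [Finset.mem_insert, Finset.mem_singleton] at he
  rw [abs_le]
  omega

theorem reach_big (z : ℤ) (c : ZMod 7) (hz : 3 ≤ z.natAbs) : Reach z.natAbs (el z c) := by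
  obtain ⟨e, he, rfl⟩ := small_rep c
  have h := reach_pos z.natAbs e (by omega)
  rcases le_total 0 z with h0 | h0
  · have : ((z.natAbs : ℕ) : ℤ) = z := by omega
    rw [this] at h
    exact h.1
  · have : -((z.natAbs : ℕ) : ℤ) = z := by omega
    rw [this] at h
    exact h.2

theorem reach_back (k : ℕ) : ∀ c : ZMod 7, Reach (3 + k) (el (3 - k) c) := by
  induction k with
  | zero => intro c; simpa using reach_big 3 c (by norm_num)
  | succ k ih =>
    intro c
    refine (ih c).step ?_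
    rw [adj_el]
    right; left
    exact ⟨by push_cast; ring, by left; ring⟩

theorem exists_reach (v : G7) : ∃ n, Reach n v ∧ (n ≤ (zc v).natAbs ∨ n ≤ 8) := by
  by_cases h : 3 ≤ (zc v).natAbs
  · exact ⟨_, reach_big (zc v) (cc v) h, Or.inl le_rfl⟩
  · refine ⟨3 + (3 - zc v).toNat, ?_, Or.inr (by omega)⟩
    have h1 := reach_back (3 - zc v).toNat (cc v)
    have : (3 : ℤ) - ((3 - zc v).toNat : ℤ) = zc v := by omega
    rwa [this] at h1

theorem reachable (v : G7) : (cayley S7).Reachable 1 v := by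
  obtain ⟨n, ⟨p, -⟩, -⟩ := exists_reach v
  exact ⟨p⟩

theorem len_le {n : ℕ} {v : G7} (h : Reach n v) : len S7 v ≤ n := by
  obtain ⟨p, rfl⟩ := h
  exact SimpleGraph.dist_le p

theorem zc_adj {v w : G7} (h : (cayley S7).Adj v w) : (zc w).natAbs ≤ (zc v).natAbs + 1 := by
  rw [← el_eta v, ← el_eta w, adj_el] at h
  omega

theorem zc_le_of_inc (π : ℕ → G7) (h0 : zc (π 0) = 0)
    (h : ∀ i, (cayley S7).Adj (π i) (π (i + 1)) ∧ len S7 (π i) < len S7 (π (i + 1))) (i : ℕ) :
    (zc (π i)).natAbs ≤ i ∧ len S7 (π 0) + i ≤ len S7 (π i) := by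
  induction i with
  | zero => simp [h0]
  | succ i ih =>
    have h1 := zc_adj (h i).1
    have h2 := (h i).2
    omega

theorem not_inf {v : G7} (hz : zc v = 0) {n : ℕ} (hn : 1 ≤ n) : v ∉ sphereInf S7 n := by
  rintro ⟨hv, π, rfl, h⟩
  obtain ⟨h1, h2⟩ := zc_le_of_inc π hz h 20
  obtain ⟨m, hm, hm'⟩ := exists_reach (π 20)
  have h3 := len_le hm
  omega

theorem adj_mid {y : G7} (h1 : (cayley S7).Adj 1 y) (h2 : (cayley S7).Adj y (el 0 4)) :
    zc y = 0 := by
  rw [one_el, ← el_eta y, adj_el] at h1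
  rw [← el_eta y, adj_el] at h2
  generalize zc y = z at *
  generalize cc y = c at *
  rw [sub_zero, sub_zero] at h1
  by_contra hz
  have hc : c = 0 ∨ c = 1 ∨ c = -1 := by
    rcases h1 with h | h | h
    · exact h.2
    · exact h.2
    · exact absurd h.1 hz
  have hc' : 4 - c = 0 ∨ 4 - c = 1 ∨ 4 - c = -1 := by
    rcases h2 with h | h | h
    · exact h.2
    · exact h.2
    · exact absurd (by omega) hz
  have key : ∀ c : ZMod 7, (c = 0 ∨ c = 1 ∨ c = -1) → ¬ (4 - c = 0 ∨ 4 - c = 1 ∨ 4 - c = -1) := by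
    decide
  exact key c hc hc'

theorem not_adj_x : ¬ (cayley S7).Adj 1 (el 0 4) := by
  rw [one_el, adj_el]
  have key : ¬ ((4 : ZMod 7) - 0 = 2 ∨ (4 : ZMod 7) - 0 = -2) := by decide
  rintro (h | h | h)
  · omega
  · omega
  · exact key h.2

theorem reach_x : Reach 2 (el 0 4) := by
  have h : Reach 1 (el 0 2) := Reach.zero.step (by
    rw [adj_el]; right; right; exact ⟨by ring, by left; ring⟩)
  exact h.step (by rw [adj_el]; right; right; exact ⟨by ring, by left; decide⟩)

theorem x_ne_one : (1 : G7) ≠ el 0 4 := by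
  rw [one_el, Ne, el_inj]
  rintro ⟨-, h⟩
  revert h
  decide

theorem len_x : len S7 (el 0 4) = 2 := by
  apply le_antisymm (len_le reach_x)
  obtain ⟨p, hp⟩ := (reachable (el 0 4)).exists_walk_length_eq_dist
  change 2 ≤ (cayley S7).dist 1 (el 0 4)
  rw [← hp]
  by_contra hlt
  have : p.length = 0 ∨ p.length = 1 := by omega
  rcases this with h | h
  · exact x_ne_one (SimpleGraph.Walk.eq_of_length_eq_zero h)
  · exact not_adj_x (SimpleGraph.Walk.adj_of_length_eq_one h)

theorem onGeodesic_zc {y : G7} (h : OnGeodesic S7 y (el 0 4)) : zc y = 0 := by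
  obtain ⟨p, hp, hy⟩ := h
  rw [len_x] at hp
  cases p with
  | cons h1 q =>
    cases q with
    | nil => simp at hp
    | cons h2 q' =>
      cases q' with
      | nil =>
        simp only [SimpleGraph.Walk.support_cons, SimpleGraph.Walk.support_nil,
          List.mem_cons, List.not_mem_nil, or_false] at hy
        rcases hy with rfl | rfl | rfl
        · rfl
        · exact adj_mid h1 h2
        · rfl
      | cons h3 q'' => simp at hp

theorem sd_x : 2 ≤ sd S7 (el 0 4) := by
  unfold sd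
  refine le_csInf ?_ ?_
  · refine ⟨2, by rw [len_x], 1, ?_, ?_⟩
    · rw [len_x]
      refine ⟨by simp [len], fun i => el i 0, rfl, fun i => ?_⟩
      have hl : ∀ j : ℕ, len S7 (el j 0) = j := by
        intro j
        apply le_antisymm
        · have := (reach_pos j 0 (by simp)).1
          rw [Int.cast_zero] at this
          exact len_le this
        · obtain ⟨p, hp⟩ := (reachable (el j 0)).exists_walk_length_eq_dist
          change j ≤ (cayley S7).dist 1 (el j 0)
          rw [← hp]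
          clear hp
          have key : ∀ (u v : G7) (p : (cayley S7).Walk u v),
              (zc v).natAbs ≤ (zc u).natAbs + p.length := by
            intro u v p
            induction p with
            | nil => simp
            | cons h p ih =>
              have := zc_adj h
              rw [SimpleGraph.Walk.length_cons]
              omega
          have := key _ _ p
          have h0 : zc (1 : G7) = 0 := rfl
          have hj : zc (el j 0) = j := rfl
          rw [h0, hj] at this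
          simpa using this
      refine ⟨?_, ?_⟩
      · rw [adj_el]
        left
        exact ⟨by push_cast; ring, by left; ring⟩
      · rw [hl i, hl (i + 1)]
        exact Nat.lt_succ_self i
    · obtain ⟨p, hp⟩ := (reachable (el 0 4)).exists_walk_length_eq_dist
      exact ⟨p, hp, SimpleGraph.Walk.start_mem_support p⟩
  · rintro k ⟨hk, y, hy, hg⟩
    rw [len_x] at hk hy
    by_contra hlt
    exact not_inf (onGeodesic_zc hg) (by omega) hy

theorem closure_S7 : Subgroup.closure S7 = ⊤ := by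
  rw [eq_top_iff]
  rintro v -
  have key : ∀ (u v : G7) (p : (cayley S7).Walk u v), u ∈ Subgroup.closure S7 →
      v ∈ Subgroup.closure S7 := by
    intro u v p
    induction p with
    | nil => exact fun h => h
    | @cons u w v h p ih =>
      intro hu
      apply ih
      rcases h.2 with h | h
      · have := mul_mem hu (Subgroup.subset_closure h)
        simpa using this
      · have := mul_mem hu (inv_mem (Subgroup.subset_closure h))
        simpa using this
  obtain ⟨p⟩ := reachable v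
  exact key _ _ p (one_mem _)

/-- **The bound `sd(x) ≤ ⌈|x| / 2⌉` fails**: there are an infinite group `G`, a finite generating
set `S` and an element `x` with `sd(x) > ⌈|x| / 2⌉`. -/
theorem result : ∃ (G : Type) (_ : Group G) (S : Set G) (x : G),
    Infinite G ∧ S.Finite ∧ Subgroup.closure S = ⊤ ∧ ⌈(len S x : ℝ) / 2⌉₊ < sd S x := by
  refine ⟨G7, inferInstance, S7, el 0 4, ?_, ?_, closure_S7, ?_⟩
  · have : Infinite (ℤ × ZMod 7) := inferInstance
    exact Infinite.of_injective (fun z : ℤ => el z 0) (fun z z' h => (el_inj.1 h).1)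
  · unfold S7
    exact Set.toFinite _
  · rw [len_x]
    norm_num
    exact sd_x

end Pool.Agent.Results.MP_ea4c65_al.ShadowCounterexample
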